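import Mathlib

set_option autoImplicit false

namespace Pool.Agent.Results.MP_69ced1_co.Counterexample

/-- `S` is a total dominating set of `G`: every vertex (in `S` or not) has a neighbour in `S`. -/
def IsTotalDominating {V : Type} (G : SimpleGraph V) (S : Finset V) : Prop :=
  ∀ v : V, ∃ u ∈ S, G.Adj v u

/-- The total domination number: the least size of a total dominating set. -/
noncomputable def totalDominationNumber {V : Type} (G : SimpleGraph V) : ℕ :=
  sInf {n : ℕ | ∃ S : Finset V, IsTotalDominating G S ∧ S.card = n}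

/-- The bipartite graph on `Fin s ⊕ Fin s` with biadjacency relation `M`. -/
def bip {s : ℕ} (M : Fin s → Fin s → Prop) : SimpleGraph (Fin s ⊕ Fin s) where
  Adj x y := (∃ r c, x = Sum.inl r ∧ y = Sum.inr c ∧ M r c) ∨
    (∃ r c, x = Sum.inr c ∧ y = Sum.inl r ∧ M r c)
  symm := ⟨by
    rintro x y (⟨r, c, rfl, rfl, h⟩ | ⟨r, c, rfl, rfl, h⟩)
    · exact Or.inr ⟨r, c, rfl, rfl, h⟩
    · exact Or.inl ⟨r, c, rfl, rfl, h⟩⟩
  loopless := ⟨by
    rintro x (⟨r, c, rfl, h, _⟩ | ⟨r, c, rfl, h, _⟩) <;> cases h⟩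

lemma bip_ll {s : ℕ} (M : Fin s → Fin s → Prop) (a b : Fin s) :
    ¬ (bip M).Adj (Sum.inl a) (Sum.inl b) := by
  rintro (⟨r, c, _, h, _⟩ | ⟨r, c, h, _, _⟩) <;> cases h

lemma bip_rr {s : ℕ} (M : Fin s → Fin s → Prop) (a b : Fin s) :
    ¬ (bip M).Adj (Sum.inr a) (Sum.inr b) := by
  rintro (⟨r, c, h, _, _⟩ | ⟨r, c, _, h, _⟩) <;> cases h

lemma bip_lr {s : ℕ} (M : Fin s → Fin s → Prop) (a b : Fin s) :
    (bip M).Adj (Sum.inl a) (Sum.inr b) ↔ M a b := by
  constructor
  · rintro (⟨r, c, h1, h2, h⟩ | ⟨r, c, h, _, _⟩)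
    · cases h1; cases h2; exact h
    · cases h
  · intro h; exact Or.inl ⟨a, b, rfl, rfl, h⟩

lemma bip_rl {s : ℕ} (M : Fin s → Fin s → Prop) (a b : Fin s) :
    (bip M).Adj (Sum.inr b) (Sum.inl a) ↔ M a b := by
  rw [SimpleGraph.adj_comm, bip_lr]

lemma bip_sup {s : ℕ} (M : Fin s → Fin s → Prop) :
    bip M ⊔ bip (fun r c => ¬ M r c) = completeBipartiteGraph (Fin s) (Fin s) := by
  ext x y
  rcases x with a | a <;> rcases y with b | b <;>
    simp [bip_ll, bip_rr, bip_lr, bip_rl, em]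

lemma bip_disjoint {s : ℕ} (M : Fin s → Fin s → Prop) :
    Disjoint (bip M).edgeSet (bip (fun r c => ¬ M r c)).edgeSet := by
  rw [Set.disjoint_left]
  intro e
  induction e using Sym2.ind with
  | h x y =>
    rcases x with a | a <;> rcases y with b | b <;>
      simp [bip_ll, bip_rr, bip_lr, bip_rl]

lemma bip_noIsolated {s : ℕ} (M : Fin s → Fin s → Prop) (hr : ∀ r, ∃ c, M r c)
    (hc : ∀ c, ∃ r, M r c) (v : Fin s ⊕ Fin s) : ∃ u, (bip M).Adj v u := by
  rcases v with a | a
  · obtain ⟨c, h⟩ := hr a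
    exact ⟨Sum.inr c, (bip_lr M _ _).2 h⟩
  · obtain ⟨r, h⟩ := hc a
    exact ⟨Sum.inl r, (bip_rl M _ _).2 h⟩

/-- Lower bound: if the columns indexed by `P` have their only neighbour in the row with the same
index, some column has no neighbour in the rows of `P`, and no column sees all rows, then every
total dominating set has at least `P.card + 3` vertices. -/
lemma lower {s : ℕ} (M : Fin s → Fin s → Prop) (P : Finset (Fin s)) (c0 : Fin s)
    (hr : ∀ r, ∃ c, M r c) (hc : ∀ c, ∃ r, M r c) (hc' : ∀ c, ∃ r, ¬ M r c)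
    (hP : ∀ c ∈ P, ∀ r, M r c → r = c) (hc0 : ∀ r ∈ P, ¬ M r c0) :
    P.card + 3 ≤ totalDominationNumber (bip M) := by
  classical
  unfold totalDominationNumber
  refine le_csInf ⟨_, Finset.univ, fun v => ?_, rfl⟩ ?_
  · obtain ⟨u, hu⟩ := bip_noIsolated M hr hc v
    exact ⟨u, Finset.mem_univ _, hu⟩
  rintro n ⟨S, hS, rfl⟩
  have hrow : ∀ r : Fin s, ∃ c, Sum.inr c ∈ S ∧ M r c := by
    intro r
    obtain ⟨u, hu, h⟩ := hS (Sum.inl r)
    rcases u with a | a
    · exact absurd h (bip_ll M _ _)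
    · exact ⟨a, hu, (bip_lr M _ _).1 h⟩
  have hcol : ∀ c : Fin s, ∃ r, Sum.inl r ∈ S ∧ M r c := by
    intro c
    obtain ⟨u, hu, h⟩ := hS (Sum.inr c)
    rcases u with a | a
    · exact ⟨a, hu, (bip_rl M _ _).1 h⟩
    · exact absurd h (bip_rr M _ _)
  obtain ⟨r0, hr0S, hr0⟩ := hcol c0
  have hr0P : r0 ∉ P := fun h => hc0 r0 h hr0
  obtain ⟨c1, hc1S, -⟩ := hrow c0
  obtain ⟨r1, hr1⟩ := hc' c1
  obtain ⟨c2, hc2S, hc2⟩ := hrow r1
  have h12 : c1 ≠ c2 := by rintro rfl; exact hr1 hc2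
  have hsub : (insert r0 P).disjSum ({c1, c2} : Finset (Fin s)) ⊆ S := by
    intro x hx
    rcases x with a | a
    · rw [Finset.inl_mem_disjSum, Finset.mem_insert] at hx
      rcases hx with rfl | hx
      · exact hr0S
      · obtain ⟨r, hrS, h⟩ := hcol a
        rw [← hP a hx r h]; exact hrS
    · rw [Finset.inr_mem_disjSum, Finset.mem_insert, Finset.mem_singleton] at hx
      rcases hx with rfl | rfl
      · exact hc1S
      · exact hc2S
  have := Finset.card_le_card hsub
  rw [Finset.card_disjSum, Finset.card_insert_of_notMem hr0P, Finset.card_pair h12] at this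
  omega

/-- The biadjacency relation of the first factor, with `t` columns of degree one. -/
def mat (s t : ℕ) (r c : Fin s) : Prop :=
  (c.val < t ∧ r.val = c.val) ∨ (t ≤ c.val ∧ c.val + 1 < s ∧ r.val ≠ c.val) ∨
    (c.val + 1 = s ∧ t ≤ r.val)

lemma card_filter_Ico (s a b : ℕ) (hb : b ≤ s) :
    (Finset.univ.filter (fun r : Fin s => a ≤ r.val ∧ r.val < b)).card = b - a := by
  rw [← Nat.card_Ico a b]
  refine Finset.card_bij (fun r _ => r.val) ?_ ?_ ?_
  · intro r hr
    simpa using hr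
  · intro r _ r' _ h
    exact Fin.ext h
  · intro n hn
    rw [Finset.mem_Ico] at hn
    exact ⟨⟨n, by omega⟩, by simpa using hn, rfl⟩

/-- For every `s ≥ 21` there is a two-factorization `G₁ ⊕ G₂ = K(s,s)` without isolated vertices
whose total domination numbers have product larger than `8 s`. -/
theorem result (s : ℕ) (hs : 21 ≤ s) :
    ∃ G₁ G₂ : SimpleGraph (Fin s ⊕ Fin s),
      G₁ ⊔ G₂ = completeBipartiteGraph (Fin s) (Fin s) ∧
      Disjoint G₁.edgeSet G₂.edgeSet ∧
      (∀ v, ∃ u, G₁.Adj v u) ∧ (∀ v, ∃ u, G₂.Adj v u) ∧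
      8 * s < totalDominationNumber G₁ * totalDominationNumber G₂ := by
  obtain ⟨t, ht⟩ : ∃ t : ℕ, t = (s - 1) / 2 := ⟨_, rfl⟩
  have hr1 : ∀ r : Fin s, ∃ c, mat s t r c := by
    intro r
    by_cases h : r.val = t
    · exact ⟨⟨t + 1, by omega⟩, by unfold mat; simp only; omega⟩
    · exact ⟨⟨t, by omega⟩, by unfold mat; simp only; omega⟩
  have hr2 : ∀ r : Fin s, ∃ c, ¬ mat s t r c := by
    intro r
    by_cases h : r.val = 0
    · exact ⟨⟨1, by omega⟩, by unfold mat; simp only; omega⟩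
    · exact ⟨⟨0, by omega⟩, by unfold mat; simp only; omega⟩
  have hc1 : ∀ c : Fin s, ∃ r, mat s t r c := by
    intro c
    have := c.isLt
    by_cases h : c.val < t
    · exact ⟨c, by unfold mat; omega⟩
    · exact ⟨⟨s - 1, by omega⟩, by unfold mat; simp only; omega⟩
  have hc2 : ∀ c : Fin s, ∃ r, ¬ mat s t r c := by
    intro c
    have := c.isLt
    by_cases h : c.val < t
    · exact ⟨⟨s - 1, by omega⟩, by unfold mat; simp only; omega⟩
    · by_cases h' : c.val + 1 = s
      · exact ⟨⟨0, by omega⟩, by unfold mat; simp only; omega⟩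
      · exact ⟨c, by unfold mat; omega⟩
  have h1 := lower (mat s t) (Finset.univ.filter (fun r : Fin s => 0 ≤ r.val ∧ r.val < t))
    ⟨s - 1, by omega⟩ hr1 hc1 hc2
    (by
      intro c hc r h
      simp only [Finset.mem_filter] at hc
      unfold mat at h
      apply Fin.ext; omega)
    (by
      intro r hr
      simp only [Finset.mem_filter] at hr
      unfold mat; simp only; omega)
  have h2 := lower (fun r c => ¬ mat s t r c)
    (Finset.univ.filter (fun r : Fin s => t ≤ r.val ∧ r.val < s - 1))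
    ⟨s - 1, by omega⟩ hr2 hc2 (fun c => by simpa using hc1 c)
    (by
      intro c hc r h
      simp only [Finset.mem_filter] at hc
      unfold mat at h
      apply Fin.ext; omega)
    (by
      intro r hr
      simp only [Finset.mem_filter] at hr
      unfold mat; simp only; omega)
  rw [card_filter_Ico s 0 t (by omega)] at h1
  rw [card_filter_Ico s t (s - 1) (by omega)] at h2
  refine ⟨bip (mat s t), bip (fun r c => ¬ mat s t r c), bip_sup _, bip_disjoint _,
    bip_noIsolated _ hr1 hc1, bip_noIsolated _ hr2 hc2, ?_⟩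
  refine lt_of_lt_of_le ?_ (Nat.mul_le_mul h1 h2)
  obtain ⟨k, hk⟩ : ∃ k : ℕ, t = k + 10 := ⟨t - 10, by omega⟩
  rcases (by omega : s = 2 * k + 21 ∨ s = 2 * k + 22) with h | h
  · have e1 : t - 0 + 3 = k + 13 := by omega
    have e2 : s - 1 - t + 3 = k + 13 := by omega
    rw [e1, e2, h]; nlinarith
  · have e1 : t - 0 + 3 = k + 13 := by omega
    have e2 : s - 1 - t + 3 = k + 14 := by omega
    rw [e1, e2, h]; nlinarith

end Pool.Agent.Results.MP_69ced1_co.Counterexample
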